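import Mathlib
import Pool.Agent.H710R2.DP.Defs
import Pool.Agent.H710R2.DP.Defs2
import Pool.Agent.H710R2.DP.Tasks
import Pool.Agent.H710R2.DP.VTasks

/-!
Projection onto the closed span of the ranges of a family; central supports.
-/

open scoped ComplexOrder InnerProductSpace ComplexConjugate
open Finset

noncomputable section

namespace H710R2.DP

open H759R2.Kad

theorem dp_Vspan : V_span := by
  intro H _ _ _ M S hS
  set K0 : Submodule ℂ H := Submodule.span ℂ {x | ∃ v ∈ S, ∃ ξ : H, x = v ξ} with hK0
  set K : Submodule ℂ H := K0.topologicalClosure with hK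
  haveI : CompleteSpace K := K0.isClosed_topologicalClosure.completeSpace_coe
  have hgen : ∀ v ∈ S, ∀ ξ : H, v ξ ∈ K := fun v hv ξ =>
    K0.le_topologicalClosure (Submodule.subset_span ⟨v, hv, ξ, rfl⟩)
  have key : ∀ (y : H →L[ℂ] H) (L : Submodule ℂ H), IsClosed (L : Set H) →
      (∀ v ∈ S, ∀ ξ, y (v ξ) ∈ L) → ∀ x ∈ K, y x ∈ L := by
    intro y L hL hy x hx
    have h1 : K0 ≤ L.comap (y : H →ₗ[ℂ] H) := by
      rw [hK0, Submodule.span_le]
      rintro _ ⟨v, hv, ξ, rfl⟩
      exact hy v hv ξ
    have h2 : IsClosed ((L.comap (y : H →ₗ[ℂ] H) : Submodule ℂ H) : Set H) := hL.preimage y.continuous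
    exact K0.topologicalClosure_minimal h1 h2 hx
  have hKc : IsClosed (K : Set H) := K0.isClosed_topologicalClosure
  have hrange : (K.starProjection : H →L[ℂ] H).range = K := Submodule.range_starProjection K
  have hp : IsStarProjection K.starProjection := isStarProjection_starProjection
  refine ⟨K.starProjection, ?_, ⟨hp.isSelfAdjoint, hp.isIdempotentElem⟩, ?_, ?_⟩
  · rw [VonNeumannAlgebra.IsStarProjection.mem_iff hp]
    intro y hy
    rw [hrange]
    intro x hx
    rw [VonNeumannAlgebra.mem_commutant_iff] at hy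
    apply key y K hKc _ x hx
    intro v hv ξ
    have h1 : y (v ξ) = v (y ξ) := by
      have e1 := congrArg (fun T : H →L[ℂ] H => T ξ) (hy v (hS v hv))
      simpa using e1.symm
    rw [h1]
    exact hgen v hv _
  · intro v hv
    ext ξ
    exact Submodule.starProjection_eq_self_iff.2 (hgen v hv ξ)
  · intro y hy
    ext ξ
    have h6 := key y ⊥ (by simp) (by
      intro v hv ξ
      have := congrArg (fun T : H →L[ℂ] H => T ξ) (hy v hv)
      simpa using this) (K.starProjection ξ) (Submodule.starProjection_apply_mem K ξ)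
    simpa using h6

theorem dp_Vsupp : V_supp := by
  intro H _ _ _ M p hp
  obtain ⟨f, hfM, hf, hfv, hfy⟩ := dp_Vspan H M {x | ∃ a ∈ M, x = a * p} (by
    rintro _ ⟨a, ha, rfl⟩
    exact mul_mem ha hp)
  have hcom : ∀ a ∈ M, f * a = a * f := by
    have h1 : ∀ a ∈ M, f * a * f = a * f := by
      intro a ha
      have h2 := hfy ((1 - f) * a) (by
        rintro _ ⟨b, hb, rfl⟩
        have h3 := hfv (a * b * p) ⟨a * b, mul_mem ha hb, rfl⟩
        calc (1 - f) * a * (b * p) = a * b * p - f * (a * b * p) := by noncomm_ring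
          _ = 0 := by rw [h3, sub_self])
      have h4 : (1 - f) * a * f = a * f - f * a * f := by noncomm_ring
      rw [h4, sub_eq_zero] at h2
      exact h2.symm
    intro a ha
    have h5 := congrArg star (h1 (star a) (star_mem ha))
    simp only [star_mul, star_star, hf.1] at h5
    calc f * a = f * (a * f) := h5.symm
      _ = f * a * f := (mul_assoc _ _ _).symm
      _ = a * f := h1 a ha
  refine ⟨f, ⟨hf, hfM, hcom⟩, ?_, ?_⟩
  · have := hfv (1 * p) ⟨1, one_mem M, rfl⟩
    simpa using this
  · intro y hy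
    apply hfy
    rintro _ ⟨a, ha, rfl⟩
    rw [← mul_assoc]
    exact hy a ha

end H710R2.DP
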