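import Mathlib
import Pool.Agent.H710R2.DP.Defs
import Pool.Agent.H710R2.DP.Defs2
import Pool.Agent.H710R2.DP.Tasks
import Pool.Agent.H710R2.DP.VTasks
import Pool.Agent.H241R2.Kad4.Half

/-!
Halving of projections without abelian subprojections.
-/

open scoped ComplexOrder InnerProductSpace ComplexConjugate
open Finset

noncomputable section

namespace H710R2.DP

open H759R2.Kad

theorem dp_Vhalf (h1 : V_ab) (h2 : F_chain.{0}) : V_half := by
  intro H _ _ _ M q hqM ⟨hq1, hq2⟩ hNA
  let P : Type := {v : H →L[ℂ] H // v ∈ M ∧ IsPI v ∧ v * v = 0 ∧ q * v = v ∧ v * q = v}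
  let rel : P → P → Prop := fun x y => Ext x.1 y.1
  obtain ⟨⟨v, hvM, hv, hvv, hqv, hvq⟩, hmax⟩ : ∃ m : P, ∀ a, rel m a → rel a m := by
    apply exists_maximal_of_chains_bounded
    · intro c hc
      rcases c.eq_empty_or_nonempty with rfl | hne
      · exact ⟨⟨0, zero_mem M, by simp [IsPI], by simp, by simp, by simp⟩, by simp⟩
      · obtain ⟨V, hVM, hV, hVC, hVz⟩ := h2 H M (Subtype.val '' c) (hne.image _)
          (by rintro _ ⟨x, _, rfl⟩; exact ⟨x.2.1, x.2.2.1⟩)
          (by
            rintro _ ⟨x, hx, rfl⟩ _ ⟨y, hy, rfl⟩
            by_cases hxy : x = y
            · subst hxy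
              left
              have := x.2.2.1
              unfold IsPI at this
              unfold H759R2.Kad.Ext
              rw [← mul_assoc]
              exact this
            · exact hc hx hy hxy)
        have hz : ∀ x ∈ c, ∀ y ∈ c, (x.1 : H →L[ℂ] H) * y.1 = 0 := by
          intro x hx y hy
          by_cases hxy : x = y
          · subst hxy
            exact x.2.2.2.1
          · rcases hc hx hy hxy with h | h
            · -- y extends x
              have h' : Ext x.1 y.1 := h
              have hp := HF.ext_proj x.2.2.1 y.2.2.1 h'
              have hp' : (star x.1 * x.1) * (star y.1 * y.1) = star x.1 * x.1 := by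
                have := congrArg star hp
                simpa [mul_assoc] using this
              unfold H759R2.Kad.Ext at h'
              calc x.1 * y.1 = (y.1 * (star x.1 * x.1)) * y.1 := by rw [h']
                _ = y.1 * ((star x.1 * x.1) * (star y.1 * y.1)) * y.1 := by
                    rw [hp']
                _ = y.1 * ((star x.1 * x.1) * (star y.1)) * (y.1 * y.1) := by noncomm_ring
                _ = 0 := by rw [y.2.2.2.1, mul_zero]
            · -- x extends y
              have h' : Ext y.1 x.1 := h
              unfold H759R2.Kad.Ext at h'
              calc x.1 * y.1 = x.1 * (x.1 * (star y.1 * y.1)) := by rw [h']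
                _ = (x.1 * x.1) * (star y.1 * y.1) := by noncomm_ring
                _ = 0 := by rw [x.2.2.2.1, zero_mul]
        have hxV : ∀ x ∈ c, (x.1 : H →L[ℂ] H) * V = 0 := by
          intro x hx
          have := hVz x.1 1 (by
            rintro _ ⟨y, hy, rfl⟩
            rw [hz x hx y hy, zero_mul])
          simpa using this
        have hVV : V * V = 0 := by
          have := hVz 1 V (by
            rintro _ ⟨y, hy, rfl⟩
            rw [one_mul, hxV y hy])
          simpa using this
        have hqV : q * V = V := by
          have := hVz (1 - q) 1 (by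
            rintro _ ⟨y, hy, rfl⟩
            rw [mul_one, sub_mul, one_mul, y.2.2.2.2.1, sub_self])
          rw [mul_one, sub_mul, one_mul, sub_eq_zero] at this
          exact this.symm
        have hVq : V * q = V := by
          have := hVz 1 (1 - q) (by
            rintro _ ⟨y, hy, rfl⟩
            rw [one_mul, mul_sub, mul_one, y.2.2.2.2.2, sub_self])
          rw [one_mul, mul_sub, mul_one, sub_eq_zero] at this
          exact this.symm
        refine ⟨⟨V, hVM, hV, hVV, hqV, hVq⟩, fun a ha => hVC _ ⟨a, ha, rfl⟩⟩
    · intro a b c hab hbc
      exact HF.ext_trans a.2.2.1 b.2.2.1 hab hbc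
  have hsM : star v ∈ M := star_mem hvM
  have hqsv : q * star v = star v := by
    have := congrArg star hvq
    simpa [hq1] using this
  have hsvq : star v * q = star v := by
    have := congrArg star hqv
    simpa [hq1] using this
  set r : H →L[ℂ] H := q - star v * v - v * star v with hr
  have hrM : r ∈ M := sub_mem (sub_mem hqM (mul_mem hsM hvM)) (mul_mem hvM hsM)
  unfold IsPI at hv
  have hv' : star v * v * star v = star v := by
    have := congrArg star hv
    simpa [mul_assoc] using this
  have hss : star v * star v = 0 := by
    have := congrArg star hvv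
    simpa using this
  have hvr : v * r = 0 := by
    calc v * r = v * q - v * star v * v - (v * v) * star v := by rw [hr]; noncomm_ring
      _ = 0 := by rw [hv, hvv, hvq]; simp
  have hrv : r * v = 0 := by
    calc r * v = q * v - star v * (v * v) - v * star v * v := by rw [hr]; noncomm_ring
      _ = 0 := by rw [hv, hvv, hqv]; simp
  have hsr : star r = r := by
    rw [hr]; simp [hq1]
  have hrsv : r * star v = 0 := by
    have := congrArg star hvr
    simpa [hsr] using this
  have hsvr : star v * r = 0 := by
    have := congrArg star hrv
    simpa [hsr] using this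
  have hqr : q * r = r := by
    calc q * r = q * q - (q * star v) * v - (q * v) * star v := by rw [hr]; noncomm_ring
      _ = r := by rw [hq2, hqsv, hqv, hr]
  have hrq : r * q = r := by
    have := congrArg star hqr
    simpa [hsr, hq1] using this
  have hrr : r * r = r := by
    calc r * r = r * q - (r * star v) * v - (r * v) * star v := by
          conv_lhs =>
            arg 2
            rw [hr]
          noncomm_ring
      _ = r := by rw [hrsv, hrv, hrq]; simp
  have hab : IsAb M r := by
    apply h1 H M r hrM ⟨hsr, hrr⟩
    intro w hwM hw hrw hwr hww
    unfold IsPI at hw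
    have hvw : v * w = 0 := by rw [← hrw, ← mul_assoc, hvr, zero_mul]
    have hwv : w * v = 0 := by rw [← hwr, mul_assoc, hrv, mul_zero]
    have hswr : star w * r = star w := by
      have := congrArg star hrw
      simpa [hsr] using this
    have hrsw : r * star w = star w := by
      have := congrArg star hwr
      simpa [hsr] using this
    have hswv : star w * v = 0 := by rw [← hswr, mul_assoc, hrv, mul_zero]
    have hsvw : star v * w = 0 := by rw [← hrw, ← mul_assoc, hsvr, zero_mul]
    have hvsw : v * star w = 0 := by rw [← hrsw, ← mul_assoc, hvr, zero_mul]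
    have hwsv : w * star v = 0 := by rw [← hwr, mul_assoc, hrsv, mul_zero]
    have hqw : q * w = w := by rw [← hrw, ← mul_assoc, hqr]
    have hwq : w * q = w := by rw [← hwr, mul_assoc, hrq]
    let m' : P := ⟨v + w, add_mem hvM hwM, by
      unfold IsPI
      calc (v + w) * star (v + w) * (v + w)
          = v * star v * v + v * (star v * w) + (v * star w) * (v + w) + (w * star v) * (v + w)
            + w * (star w * v) + w * star w * w := by
            simp only [star_add]; noncomm_ring
        _ = v + w := by rw [hv, hsvw, hvsw, hwsv, hswv, hw]; simp, by
      calc (v + w) * (v + w) = v * v + v * w + w * v + w * w := by noncomm_ring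
        _ = 0 := by rw [hvv, hvw, hwv, hww]; simp, by
      rw [mul_add, hqv, hqw], by rw [add_mul, hvq, hwq]⟩
    have hm := hmax m' (by
      change (v + w) * (star v * v) = v
      calc (v + w) * (star v * v) = v * star v * v + (w * star v) * v := by noncomm_ring
        _ = v := by rw [hv, hwsv]; simp)
    have hm' : v * (star (v + w) * (v + w)) = v + w := hm
    have : v * (star (v + w) * (v + w)) = v := by
      calc v * (star (v + w) * (v + w))
          = v * star v * v + v * (star v * w) + (v * star w) * (v + w) := by
            simp only [star_add]; noncomm_ring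
        _ = v := by rw [hv, hsvw, hvsw]; simp
    rw [this] at hm'
    have h5 : v + w = v + 0 := by rw [← hm', add_zero]
    exact add_left_cancel h5
  have hr0 : r = 0 := hNA r hrM ⟨hsr, hrr⟩ hqr hab
  refine ⟨v, hvM, hvv, ?_⟩
  have h6 : q - star v * v - v * star v = 0 := by rw [← hr]; exact hr0
  rw [sub_sub, sub_eq_zero] at h6
  exact h6.symm

end H710R2.DP
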